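import Mathlib

set_option autoImplicit false

namespace Pool.Agent.H683R3

open Finset

section General
variable {V : Type} [DecidableEq V] (G : SimpleGraph V)

open Classical in
/-- weighted number of independent subsets of `S` -/
noncomputable def Zs (l : ℝ) (S : Finset V) : ℝ :=
  ∑ I ∈ S.powerset, if G.IsIndepSet (I : Set V) then l ^ I.card else 0

open Classical in
/-- weighted total size of independent subsets of `S` -/
noncomputable def Ds (l : ℝ) (S : Finset V) : ℝ :=
  ∑ I ∈ S.powerset, if G.IsIndepSet (I : Set V) then (I.card : ℝ) * l ^ I.card else 0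

open Classical in
lemma insert_gen (S : Finset V) (v : V) (hv : v ∉ S) (f : ℕ → ℝ) :
    (∑ I ∈ (insert v S).powerset, if G.IsIndepSet (I : Set V) then f I.card else 0) =
    (∑ I ∈ S.powerset, if G.IsIndepSet (I : Set V) then f I.card else 0) +
    (∑ I ∈ (S.filter (fun w => ¬ G.Adj v w)).powerset,
      if G.IsIndepSet (I : Set V) then f (I.card + 1) else 0) := by
  rw [Finset.sum_powerset_insert hv]
  congr 1
  have hsub : (S.filter (fun w => ¬ G.Adj v w)).powerset ⊆ S.powerset :=
    Finset.powerset_mono.2 (Finset.filter_subset _ _)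
  rw [← Finset.sum_subset hsub]
  · apply Finset.sum_congr rfl
    intro I hI
    rw [Finset.mem_powerset] at hI
    have hvI : v ∉ I := fun h => hv ((Finset.filter_subset _ _) (hI h))
    rw [Finset.card_insert_of_notMem hvI]
    have hiff : G.IsIndepSet ((insert v I : Finset V) : Set V) ↔ G.IsIndepSet (I : Set V) := by
      constructor
      · intro h
        exact h.mono (by intro x hx; simp only [Finset.coe_insert]; exact Set.mem_insert_of_mem _ hx)
      · intro h
        rw [Finset.coe_insert]
        unfold SimpleGraph.IsIndepSet at *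
        rw [Set.pairwise_insert]
        refine ⟨h, ?_⟩
        intro w hw _
        have := (Finset.mem_filter.1 (hI hw)).2
        exact ⟨this, fun h => this h.symm⟩
    by_cases h : G.IsIndepSet (I : Set V)
    · rw [if_pos h, if_pos (hiff.2 h)]
    · rw [if_neg h, if_neg (fun h' => h (hiff.1 h'))]
  · intro I hI hI2
    rw [Finset.mem_powerset] at hI hI2
    rw [if_neg]
    intro hind
    apply hI2
    intro w hw
    rw [Finset.mem_filter]
    refine ⟨hI hw, ?_⟩
    have hvw : v ≠ w := fun h => hv (h ▸ hI hw)
    exact hind (by simp) (by simp [hw]) hvw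

open Classical in
lemma Zs_insert (l : ℝ) (S : Finset V) (v : V) (hv : v ∉ S) :
    Zs G l (insert v S) = Zs G l S + l * Zs G l (S.filter (fun w => ¬ G.Adj v w)) := by
  unfold Zs
  rw [insert_gen G S v hv (fun k => l ^ k), Finset.mul_sum]
  congr 1
  apply Finset.sum_congr rfl
  intro I _
  by_cases h : G.IsIndepSet (I : Set V)
  · rw [if_pos h, if_pos h]; ring
  · rw [if_neg h, if_neg h]; ring

open Classical in
lemma Ds_insert (l : ℝ) (S : Finset V) (v : V) (hv : v ∉ S) :
    Ds G l (insert v S) = Ds G l S + l * (Ds G l (S.filter (fun w => ¬ G.Adj v w)) +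
      Zs G l (S.filter (fun w => ¬ G.Adj v w))) := by
  unfold Ds Zs
  rw [insert_gen G S v hv (fun k => (k : ℝ) * l ^ k), ← Finset.sum_add_distrib, Finset.mul_sum]
  congr 1
  apply Finset.sum_congr rfl
  intro I _
  by_cases h : G.IsIndepSet (I : Set V)
  · rw [if_pos h, if_pos h, if_pos h]; push_cast; ring
  · rw [if_neg h, if_neg h, if_neg h]; ring

/-- the deletion recursion on lists, with fuel -/
def ev (adj : V → V → Bool) (l : ℕ) : ℕ → List V → ℕ × ℕ
  | 0, _ => (1, 0)
  | _ + 1, [] => (1, 0)
  | n + 1, v :: vs =>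
    let a := ev adj l n vs
    let b := ev adj l n (vs.filter (fun w => !adj v w))
    (a.1 + l * b.1, a.2 + l * (b.2 + b.1))

lemma ev_spec (adj : V → V → Bool) (h : ∀ v w, adj v w = true ↔ G.Adj v w) (l : ℕ) :
    ∀ (n : ℕ) (L : List V), L.length ≤ n → L.Nodup →
      ((ev adj l n L).1 : ℝ) = Zs G l L.toFinset ∧ ((ev adj l n L).2 : ℝ) = Ds G l L.toFinset := by
  classical
  have h0 : Zs G (l : ℝ) (([] : List V).toFinset) = 1 ∧ Ds G (l : ℝ) (([] : List V).toFinset) = 0 := by
    unfold Zs Ds
    simp [SimpleGraph.IsIndepSet]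
  intro n
  induction n with
  | zero =>
    intro L hL _
    have : L = [] := List.length_eq_zero_iff.1 (by omega)
    subst this
    unfold ev
    exact ⟨by rw [h0.1]; norm_num, by rw [h0.2]; norm_num⟩
  | succ n ih =>
    intro L hL hN
    cases L with
    | nil =>
      unfold ev
      exact ⟨by rw [h0.1]; norm_num, by rw [h0.2]; norm_num⟩
    | cons v vs =>
      rw [List.nodup_cons] at hN
      have hlen : vs.length ≤ n := by simpa using hL
      have hf : (vs.filter (fun w => !adj v w)).toFinset =
          vs.toFinset.filter (fun w => ¬ G.Adj v w) := by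
        ext w
        simp only [List.mem_toFinset, List.mem_filter, Finset.mem_filter, Bool.not_eq_true']
        constructor
        · rintro ⟨a, b⟩
          refine ⟨a, fun hc => ?_⟩
          rw [(h v w).2 hc] at b
          exact Bool.noConfusion b
        · rintro ⟨a, b⟩
          refine ⟨a, ?_⟩
          by_contra hc
          exact b ((h v w).1 (by simpa using hc))
      obtain ⟨ha1, ha2⟩ := ih vs hlen hN.2
      obtain ⟨hb1, hb2⟩ := ih (vs.filter (fun w => !adj v w))
        ((List.length_filter_le _ _).trans hlen) (hN.2.filter _)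
      have hv : v ∉ vs.toFinset := by simpa using hN.1
      rw [List.toFinset_cons, Zs_insert G l _ v hv, Ds_insert G l _ v hv, ← hf]
      simp only [ev]
      push_cast
      rw [ha1, ha2, hb1, hb2]
      exact ⟨rfl, rfl⟩

lemma eval [Fintype V] (adj : V → V → Bool) (h : ∀ v w, adj v w = true ↔ G.Adj v w) (l n : ℕ)
    (L : List V) (hn : L.length ≤ n) (hN : L.Nodup) (hL : ∀ v, v ∈ L) (z d : ℕ)
    (he : ev adj l n L = (z, d)) :
    Zs G l (univ : Finset V) = z ∧ Ds G l (univ : Finset V) = d := by
  have hu : L.toFinset = univ := by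
    ext v
    simp [hL v]
  obtain ⟨h1, h2⟩ := ev_spec G adj h l n L hn hN
  rw [he, hu] at h1 h2
  exact ⟨h1.symm, h2.symm⟩

end General

end Pool.Agent.H683R3
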